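import Pool.Agent.Helper49_LCR.Stmts

/-!
# GEN: perturbation to general position

Each of the conditions of general position says that a nonzero polynomial in the coordinates of
the points does not vanish; a nonzero polynomial does not vanish identically on a box.
-/

namespace Pool.Agent.LCR

open MvPolynomial

namespace GEN

/-- the points given by a vector of coordinates -/
def ptOf {V : Type} (x : V × Bool → ℝ) (v : V) : Pt := (x (v, false), x (v, true))

/-- the generic point -/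
noncomputable def gp {V : Type} (v : V) : MvPolynomial (V × Bool) ℝ × MvPolynomial (V × Bool) ℝ :=
  (X (v, false), X (v, true))

/-- orientation in a ring -/
def oriR {R : Type*} [CommRing R] (p q r : R × R) : R :=
  (q.1 - p.1) * (r.2 - p.2) - (q.2 - p.2) * (r.1 - p.1)

/-- first coefficient of the equation of a line -/
def lA {R : Type*} [CommRing R] (p q : R × R) : R := q.2 - p.2
/-- second coefficient of the equation of a line -/
def lB {R : Type*} [CommRing R] (p q : R × R) : R := p.1 - q.1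
/-- third coefficient of the equation of a line -/
def lC {R : Type*} [CommRing R] (p q : R × R) : R := q.1 * p.2 - p.1 * q.2

/-- the determinant of the coefficients of three lines -/
def concR {R : Type*} [CommRing R] (a : Fin 6 → R × R) : R :=
  (lA (a 2) (a 3) * lB (a 4) (a 5) - lA (a 4) (a 5) * lB (a 2) (a 3)) * lC (a 0) (a 1)
  - (lA (a 0) (a 1) * lB (a 4) (a 5) - lA (a 4) (a 5) * lB (a 0) (a 1)) * lC (a 2) (a 3)
  + (lA (a 0) (a 1) * lB (a 2) (a 3) - lA (a 2) (a 3) * lB (a 0) (a 1)) * lC (a 4) (a 5)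

theorem exists_eval_ne {σ : Type} {p : MvPolynomial σ ℝ} (hp : p ≠ 0) (c : σ → ℝ) {ε : ℝ}
    (hε : 0 < ε) : ∃ x : σ → ℝ, (∀ i, |x i - c i| < ε) ∧ eval x p ≠ 0 := by
  by_contra h
  push Not at h
  apply hp
  apply MvPolynomial.funext_set (fun i => Set.Ioo (c i - ε) (c i + ε))
    (fun i => Set.Ioo_infinite (by linarith))
  intro x hx
  rw [map_zero]
  apply h
  intro i
  have hi : x i ∈ Set.Ioo (c i - ε) (c i + ε) := hx i (Set.mem_univ i)
  rw [abs_lt]
  constructor <;> linarith [hi.1, hi.2]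

theorem exists_pts {V : Type} {k : ℕ} (a : Fin k → V) (ha : Function.Injective a)
    (pts : Fin k → Pt) : ∃ x : V × Bool → ℝ, ∀ i, ptOf x (a i) = pts i := by
  refine ⟨fun z => if z.2 then (Function.extend a pts 0 z.1).2 else (Function.extend a pts 0 z.1).1,
    fun i => ?_⟩
  simp [ptOf, ha.extend_apply]

theorem eval_inj {V : Type} (x : V × Bool → ℝ) (a b : V) :
    eval x ((gp a).1 - (gp b).1) = (ptOf x a).1 - (ptOf x b).1 := by
  simp [gp, ptOf]

theorem eval_ori {V : Type} (x : V × Bool → ℝ) (a b c : V) :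
    eval x (oriR (gp a) (gp b) (gp c)) = ori (ptOf x a) (ptOf x b) (ptOf x c) := by
  simp [gp, ptOf, oriR, ori]

theorem eval_conc {V : Type} (x : V × Bool → ℝ) (a : Fin 6 → V) :
    eval x (concR (fun i => gp (a i))) = concR (fun i => ptOf x (a i)) := by
  simp [gp, ptOf, concR, lA, lB, lC]

theorem inj_ne {V : Type} {a b : V} (h : a ≠ b) :
    ((gp a).1 - (gp b).1 : MvPolynomial (V × Bool) ℝ) ≠ 0 := by
  obtain ⟨x, hx⟩ := exists_pts ![a, b] (by
    intro i j hij
    fin_cases i <;> fin_cases j <;> simp_all) ![((1 : ℝ), (0 : ℝ)), (0, 0)]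
  intro h0
  have h1 := eval_inj x a b
  have e0 := hx 0
  have e1 := hx 1
  simp at e0 e1
  rw [h0, e0, e1] at h1
  simp at h1

theorem ori_ne {V : Type} {a b c : V} (hab : a ≠ b) (hbc : b ≠ c) (hac : a ≠ c) :
    (oriR (gp a) (gp b) (gp c) : MvPolynomial (V × Bool) ℝ) ≠ 0 := by
  obtain ⟨x, hx⟩ := exists_pts ![a, b, c] (by
    intro i j hij
    fin_cases i <;> fin_cases j <;> simp_all) ![((0 : ℝ), (0 : ℝ)), (1, 0), (0, 1)]
  intro h0
  have h1 := eval_ori x a b c
  have e0 := hx 0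
  have e1 := hx 1
  have e2 := hx 2
  simp at e0 e1 e2
  rw [h0, e0, e1, e2] at h1
  simp [ori] at h1

theorem conc_ne {V : Type} {a : Fin 6 → V} (ha : Function.Injective a) :
    (concR (fun i => gp (a i)) : MvPolynomial (V × Bool) ℝ) ≠ 0 := by
  obtain ⟨x, hx⟩ := exists_pts a ha
    ![((0 : ℝ), (0 : ℝ)), (0, 1), (1, 0), (2, 0), (1, 0), (0, 1)]
  intro h0
  have h1 := eval_conc x a
  rw [h0] at h1
  simp only [concR] at h1
  rw [hx 0, hx 1, hx 2, hx 3, hx 4, hx 5] at h1
  simp [lA, lB, lC] at h1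
  norm_num at h1

theorem seg_line {p q z : Pt} (hz : z ∈ segment ℝ p q) :
    lA p q * z.1 + lB p q * z.2 + lC p q = 0 := by
  rw [segment_eq_image] at hz
  obtain ⟨t, -, rfl⟩ := hz
  simp [lA, lB, lC]
  ring

theorem gen : GenStmt := by
  classical
  intro V _ P ε hε
  have := Fintype.ofFinite V
  let p1 : MvPolynomial (V × Bool) ℝ :=
    ∏ z : V × V, if z.1 ≠ z.2 then (gp z.1).1 - (gp z.2).1 else 1
  let p2 : MvPolynomial (V × Bool) ℝ :=
    ∏ z : V × V × V, if z.1 ≠ z.2.1 ∧ z.2.1 ≠ z.2.2 ∧ z.1 ≠ z.2.2 then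
      oriR (gp z.1) (gp z.2.1) (gp z.2.2) else 1
  let p3 : MvPolynomial (V × Bool) ℝ :=
    ∏ a : Fin 6 → V, if Function.Injective a then concR (fun i => gp (a i)) else 1
  have hp1 : p1 ≠ 0 := by
    refine Finset.prod_ne_zero_iff.2 fun z _ => ?_
    split_ifs with h
    · exact inj_ne h
    · exact one_ne_zero
  have hp2 : p2 ≠ 0 := by
    refine Finset.prod_ne_zero_iff.2 fun z _ => ?_
    split_ifs with h
    · exact ori_ne h.1 h.2.1 h.2.2
    · exact one_ne_zero
  have hp3 : p3 ≠ 0 := by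
    refine Finset.prod_ne_zero_iff.2 fun z _ => ?_
    split_ifs with h
    · exact conc_ne h
    · exact one_ne_zero
  obtain ⟨x, hx, he⟩ := exists_eval_ne (mul_ne_zero (mul_ne_zero hp1 hp2) hp3)
    (fun z : V × Bool => if z.2 then (P z.1).2 else (P z.1).1) hε
  rw [map_mul, map_mul] at he
  have he1 : eval x p1 ≠ 0 := fun h => he (by rw [h, zero_mul, zero_mul])
  have he2 : eval x p2 ≠ 0 := fun h => he (by rw [h, mul_zero, zero_mul])
  have he3 : eval x p3 ≠ 0 := fun h => he (by rw [h, mul_zero])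
  refine ⟨ptOf x, fun v => ⟨?_, ?_⟩, ⟨?_, ?_, ?_⟩⟩
  · have := hx (v, false)
    simpa [ptOf] using this
  · have := hx (v, true)
    simpa [ptOf] using this
  · intro a b hab
    by_contra hne
    rw [show p1 = _ from rfl, map_prod, Finset.prod_ne_zero_iff] at he1
    have h1 := he1 (a, b) (Finset.mem_univ _)
    rw [if_pos hne, eval_inj, hab, sub_self] at h1
    exact h1 rfl
  · intro a b c h1 h2 h3 h0
    rw [show p2 = _ from rfl, map_prod, Finset.prod_ne_zero_iff] at he2
    have h4 := he2 (a, b, c) (Finset.mem_univ _)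
    rw [if_pos ⟨h1, h2, h3⟩, eval_ori] at h4
    exact h4 h0
  · intro a ha
    rw [show p3 = _ from rfl, map_prod, Finset.prod_ne_zero_iff] at he3
    have h4 := he3 a (Finset.mem_univ _)
    rw [if_pos ha, eval_conc] at h4
    rw [Set.eq_empty_iff_forall_notMem]
    rintro z ⟨⟨hz1, hz2⟩, hz3⟩
    apply h4
    have g1 := seg_line hz1
    have g2 := seg_line hz2
    have g3 := seg_line hz3
    simp only [concR]
    linear_combination
      (lA (ptOf x (a 2)) (ptOf x (a 3)) * lB (ptOf x (a 4)) (ptOf x (a 5)) -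
        lA (ptOf x (a 4)) (ptOf x (a 5)) * lB (ptOf x (a 2)) (ptOf x (a 3))) * g1
      - (lA (ptOf x (a 0)) (ptOf x (a 1)) * lB (ptOf x (a 4)) (ptOf x (a 5)) -
        lA (ptOf x (a 4)) (ptOf x (a 5)) * lB (ptOf x (a 0)) (ptOf x (a 1))) * g2
      + (lA (ptOf x (a 0)) (ptOf x (a 1)) * lB (ptOf x (a 2)) (ptOf x (a 3)) -
        lA (ptOf x (a 2)) (ptOf x (a 3)) * lB (ptOf x (a 0)) (ptOf x (a 1))) * g3

end GEN

end Pool.Agent.LCR
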