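import Pool.Agent.Helper72_LCR.GEN

/-!
# MID: choice of the midpoints of the strands
-/

namespace Pool.Agent.LCR

open Filter Topology

namespace MID

/-- disjointness of segments is an open condition -/
theorem disj_open {V : Type} (a b c d : V) (P : V → Pt)
    (h : Disjoint (segment ℝ (P a) (P b)) (segment ℝ (P c) (P d))) :
    ∀ᶠ Q in 𝓝 P, Disjoint (segment ℝ (Q a) (Q b)) (segment ℝ (Q c) (Q d)) := by
  have hK : IsCompact ((Set.Icc (0 : ℝ) 1) ×ˢ (Set.Icc (0 : ℝ) 1)) :=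
    isCompact_Icc.prod isCompact_Icc
  have key : ∀ᶠ Q in 𝓝 P, ∀ s ∈ (Set.Icc (0 : ℝ) 1) ×ˢ (Set.Icc (0 : ℝ) 1),
      (Q a + s.1 • (Q b - Q a)) - (Q c + s.2 • (Q d - Q c)) ≠ 0 := by
    apply hK.eventually_forall_of_forall_eventually
    rintro ⟨s, t⟩ ⟨hs, ht⟩
    have hcont : Continuous fun z : (V → Pt) × (ℝ × ℝ) =>
        (z.1 a + z.2.1 • (z.1 b - z.1 a)) - (z.1 c + z.2.2 • (z.1 d - z.1 c)) := by fun_prop
    have hne : (P a + s • (P b - P a)) - (P c + t • (P d - P c)) ≠ 0 := by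
      intro h0
      rw [sub_eq_zero] at h0
      rw [Set.disjoint_left] at h
      apply h (a := P a + s • (P b - P a))
      · rw [segment_eq_image']
        exact ⟨s, hs, rfl⟩
      · rw [segment_eq_image']
        exact ⟨t, ht, h0.symm⟩
    exact (isOpen_ne.preimage hcont).mem_nhds hne
  filter_upwards [key] with Q hQ
  rw [Set.disjoint_left]
  rintro z hz1 hz2
  rw [segment_eq_image'] at hz1 hz2
  obtain ⟨s, hs, rfl⟩ := hz1
  obtain ⟨t, ht, ht2⟩ := hz2
  exact hQ (s, t) ⟨hs, ht⟩ (sub_eq_zero.2 ht2.symm)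

/-- positions with parameter `δ` -/
noncomputable def pd (S : Bund) (P₀ : S.V → Pt) (δ : ℝ) : MV S → Pt
  | .inl v => P₀ v
  | .inr z => (((P₀ (S.src z.1)).1 + (P₀ (S.tgt z.1)).1) / 2 -
        δ * (z.2.val + 1) * ((P₀ (S.tgt z.1)).2 - (P₀ (S.src z.1)).2),
      ((P₀ (S.src z.1)).2 + (P₀ (S.tgt z.1)).2) / 2 +
        δ * (z.2.val + 1) * ((P₀ (S.tgt z.1)).1 - (P₀ (S.src z.1)).1))

theorem cont_pd (S : Bund) (P₀ : S.V → Pt) : Continuous (pd S P₀) := by
  refine continuous_pi fun v => ?_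
  rcases v with v | z
  · exact continuous_const
  · simp only [pd]
    fun_prop

theorem pd_zero (S : Bund) (P₀ : S.V → Pt) (z : Σ e : S.E, Fin (S.w e)) :
    pd S P₀ 0 (.inr z) = (((P₀ (S.src z.1)).1 + (P₀ (S.tgt z.1)).1) / 2,
      ((P₀ (S.src z.1)).2 + (P₀ (S.tgt z.1)).2) / 2) := by
  simp [pd]

theorem eq_of_mul {a b t : ℝ} (ht : t < 1) (h1 : t * a = a) (h2 : t * b = b) :
    a = 0 ∧ b = 0 := by
  constructor
  · have : (1 - t) * a = 0 := by linarith
    rcases mul_eq_zero.1 this with h | h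
    · linarith
    · exact h
  · have : (1 - t) * b = 0 := by linarith
    rcases mul_eq_zero.1 this with h | h
    · linarith
    · exact h

/-- the half-strands at `δ = 0` -/
theorem half (S : Bund) (P₀ : S.V → Pt) (hP : Function.Injective P₀)
    (hst : ∀ e, S.src e ≠ S.tgt e) (h : HS S) :
    hseg S (pd S P₀ 0) h ⊆ segment ℝ (P₀ (S.src h.1.1)) (P₀ (S.tgt h.1.1)) ∧
    ∀ v, (v = S.src h.1.1 ∨ v = S.tgt h.1.1) → P₀ v ∈ hseg S (pd S P₀ 0) h →
      (Sum.inl v = hsrc S h ∨ Sum.inl v = htgt S h) := by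
  obtain ⟨z, s⟩ := h
  have hne : P₀ (S.src z.1) ≠ P₀ (S.tgt z.1) := fun h => hst _ (hP h)
  cases s
  · simp only [hseg, hsrc, htgt, Bool.false_eq_true, if_false]
    rw [pd_zero]
    change segment ℝ (P₀ (S.src z.1)) _ ⊆ _ ∧ _
    constructor
    · intro x hx
      rw [segment_eq_image'] at hx ⊢
      obtain ⟨t, ht, rfl⟩ := hx
      refine ⟨t / 2, ⟨by linarith [ht.1], by linarith [ht.2]⟩, ?_⟩
      ext <;> simp <;> ring
    · rintro v (rfl | rfl) hv
      · exact Or.inl rfl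
      · exfalso
        change P₀ (S.tgt z.1) ∈ segment ℝ (P₀ (S.src z.1)) _ at hv
        rw [segment_eq_image'] at hv
        obtain ⟨t, ht, hv⟩ := hv
        have e1 := congrArg Prod.fst hv
        have e2 := congrArg Prod.snd hv
        simp at e1 e2
        have := eq_of_mul (a := (P₀ (S.tgt z.1)).1 - (P₀ (S.src z.1)).1)
          (b := (P₀ (S.tgt z.1)).2 - (P₀ (S.src z.1)).2) (t := t / 2)
          (by linarith [ht.2]) (by linarith) (by linarith)
        exact hne (Prod.ext (by linarith [this.1]) (by linarith [this.2]))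
  · simp only [hseg, hsrc, htgt, if_true]
    rw [pd_zero]
    change segment ℝ _ (P₀ (S.tgt z.1)) ⊆ _ ∧ _
    constructor
    · intro x hx
      rw [segment_eq_image'] at hx ⊢
      obtain ⟨t, ht, rfl⟩ := hx
      refine ⟨(1 + t) / 2, ⟨by linarith [ht.1], by linarith [ht.2]⟩, ?_⟩
      ext <;> simp <;> ring
    · rintro v (rfl | rfl) hv
      · exfalso
        change P₀ (S.src z.1) ∈ segment ℝ _ (P₀ (S.tgt z.1)) at hv
        rw [segment_eq_image'] at hv
        obtain ⟨t, ht, hv⟩ := hv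
        have e1 := congrArg Prod.fst hv
        have e2 := congrArg Prod.snd hv
        simp at e1 e2
        have := eq_of_mul (a := (P₀ (S.tgt z.1)).1 - (P₀ (S.src z.1)).1)
          (b := (P₀ (S.tgt z.1)).2 - (P₀ (S.src z.1)).2) (t := (1 - t) / 2)
          (by linarith [ht.1]) (by linarith) (by linarith)
        exact hne (Prod.ext (by linarith [this.1]) (by linarith [this.2]))
      · exact Or.inr rfl

/-- two halves of different strands of the same edge -/
theorem same (S : Bund) (P₀ : S.V → Pt) (hP : Function.Injective P₀)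
    (hst : ∀ e, S.src e ≠ S.tgt e) {δ : ℝ} (hδ : δ ≠ 0) (e : S.E) (i j : Fin (S.w e))
    (hij : i ≠ j) :
    Disjoint (segment ℝ (P₀ (S.src e)) (pd S P₀ δ (.inr ⟨e, i⟩)))
      (segment ℝ (pd S P₀ δ (.inr ⟨e, j⟩)) (P₀ (S.tgt e))) := by
  have hne : P₀ (S.src e) ≠ P₀ (S.tgt e) := fun h => hst _ (hP h)
  rw [Set.disjoint_left]
  intro x hx hx'
  rw [segment_eq_image'] at hx hx'
  obtain ⟨s, hs, rfl⟩ := hx
  obtain ⟨t, ht, hv⟩ := hx'
  have e1 := congrArg Prod.fst hv
  have e2 := congrArg Prod.snd hv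
  simp only [pd, Prod.fst_add, Prod.snd_add, Prod.smul_fst, Prod.smul_snd, Prod.fst_sub,
    Prod.snd_sub, smul_eq_mul] at e1 e2
  generalize P₀ (S.src e) = p at *
  generalize P₀ (S.tgt e) = q at *
  have hpos : 0 < (q.1 - p.1) ^ 2 + (q.2 - p.2) ^ 2 := by
    by_contra h
    have h1 : (q.1 - p.1) ^ 2 = 0 := by nlinarith [sq_nonneg (q.1 - p.1), sq_nonneg (q.2 - p.2)]
    have h2 : (q.2 - p.2) ^ 2 = 0 := by nlinarith [sq_nonneg (q.1 - p.1), sq_nonneg (q.2 - p.2)]
    have h3 := pow_eq_zero_iff (two_ne_zero) |>.1 h1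
    have h4 := pow_eq_zero_iff (two_ne_zero) |>.1 h2
    exact hne (Prod.ext (by linarith) (by linarith))
  have key : (t + (1 - s)) * ((q.1 - p.1) ^ 2 + (q.2 - p.2) ^ 2) = 0 := by
    linear_combination 2 * (q.1 - p.1) * e1 + 2 * (q.2 - p.2) * e2
  have key2 : t + (1 - s) = 0 := by
    rcases mul_eq_zero.1 key with h | h
    · exact h
    · exact absurd h hpos.ne'
  have ht0 : t = 0 := by linarith [ht.1, hs.2]
  have hs1 : s = 1 := by linarith [ht.1, hs.2]
  subst ht0 hs1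
  have hd : δ * ((i.val : ℝ) - j.val) = 0 := by
    have h1 : δ * ((i.val : ℝ) - j.val) * ((q.1 - p.1) ^ 2 + (q.2 - p.2) ^ 2) = 0 := by
      linear_combination (q.2 - p.2) * e1 - (q.1 - p.1) * e2
    rcases mul_eq_zero.1 h1 with h | h
    · exact h
    · exact absurd h hpos.ne'
  rcases mul_eq_zero.1 hd with h | h
  · exact hδ h
  · apply hij
    apply Fin.ext
    have : (i.val : ℝ) = j.val := by linarith
    exact_mod_cast this

theorem mid : MidStmt := by
  classical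
  intro S _ _ hst P₀ Pr hP hPr
  -- different edges
  have h1 : ∀ h h' : HS S, h.1.1 ≠ h'.1.1 → Pr h.1.1 h'.1.1 → Apart S h h' →
      Disjoint (hseg S (pd S P₀ 0) h) (hseg S (pd S P₀ 0) h') := by
    intro h h' hne hp hap
    rw [Set.disjoint_left]
    intro x hx hx'
    obtain ⟨v, hv, hv', rfl⟩ := hPr _ _ hne hp x
      ⟨(half S P₀ hP hst h).1 hx, (half S P₀ hP hst h').1 hx'⟩
    obtain ⟨a1, a2, a3, a4⟩ := hap
    rcases (half S P₀ hP hst h).2 v hv hx with g | g <;>
      rcases (half S P₀ hP hst h').2 v hv' hx' with g' | g'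
    · exact a1 (g.symm.trans g')
    · exact a2 (g.symm.trans g')
    · exact a3 (g.symm.trans g')
    · exact a4 (g.symm.trans g')
  have h2 : ∀ᶠ δ in 𝓝 (0 : ℝ), ∀ h h' : HS S, h.1.1 ≠ h'.1.1 → Pr h.1.1 h'.1.1 →
      Apart S h h' → Disjoint (hseg S (pd S P₀ δ) h) (hseg S (pd S P₀ δ) h') := by
    rw [eventually_all]
    intro h
    rw [eventually_all]
    intro h'
    by_cases hc : h.1.1 ≠ h'.1.1 ∧ Pr h.1.1 h'.1.1 ∧ Apart S h h'
    · have := ((cont_pd S P₀).tendsto 0).eventually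
        (disj_open (hsrc S h) (htgt S h) (hsrc S h') (htgt S h') (pd S P₀ 0)
          (h1 h h' hc.1 hc.2.1 hc.2.2))
      filter_upwards [this] with δ hδ _ _ _
      exact hδ
    · exact Eventually.of_forall fun δ a b c => absurd ⟨a, b, c⟩ hc
  obtain ⟨δ, hδ, hδ0⟩ := ((h2.filter_mono nhdsWithin_le_nhds).and
    (self_mem_nhdsWithin (s := {(0 : ℝ)}ᶜ))).exists
  have h3 : ∀ h h' : HS S, Pr h.1.1 h'.1.1 → Apart S h h' →
      Disjoint (hseg S (pd S P₀ δ) h) (hseg S (pd S P₀ δ) h') := by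
    intro h h' hp hap
    by_cases hne : h.1.1 = h'.1.1
    · obtain ⟨⟨e, i⟩, s⟩ := h
      obtain ⟨⟨f, j⟩, s'⟩ := h'
      simp only at hne
      subst hne
      obtain ⟨a1, a2, a3, a4⟩ := hap
      cases s <;> cases s'
      · exact absurd rfl a1
      · simp only [htgt, hsrc, Bool.false_eq_true, if_false, if_true] at a3
        refine same S P₀ hP hst hδ0 e i j ?_
        rintro rfl
        exact a3 rfl
      · simp only [htgt, hsrc, Bool.false_eq_true, if_false, if_true] at a2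
        refine (same S P₀ hP hst hδ0 e j i ?_).symm
        rintro rfl
        exact a2 rfl
      · exact absurd rfl a4
    · exact hδ h h' hne hp hap
  have h4 : ∀ᶠ Q in 𝓝 (pd S P₀ δ), ∀ h h' : HS S, Pr h.1.1 h'.1.1 → Apart S h h' →
      Disjoint (hseg S Q h) (hseg S Q h') := by
    rw [eventually_all]
    intro h
    rw [eventually_all]
    intro h'
    by_cases hc : Pr h.1.1 h'.1.1 ∧ Apart S h h'
    · filter_upwards [disj_open (hsrc S h) (htgt S h) (hsrc S h') (htgt S h') (pd S P₀ δ)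
          (h3 h h' hc.1 hc.2)] with Q hQ _ _
      exact hQ
    · exact Eventually.of_forall fun δ a b => absurd ⟨a, b⟩ hc
  have := Fintype.ofFinite (MV S)
  obtain ⟨ε, hε, hball⟩ := Metric.eventually_nhds_iff.1 h4
  obtain ⟨R, hR, hgen⟩ := GEN.gen (MV S) (pd S P₀ δ) ε hε
  refine ⟨R, hgen, hball ?_⟩
  rw [dist_pi_lt_iff hε]
  intro v
  rw [Prod.dist_eq, max_lt_iff, Real.dist_eq, Real.dist_eq]
  exact hR v

end MID

end Pool.Agent.LCR
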